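import Pool.Agent.H90.PA.Fin

/-!
MP_751612_pr, question Q1, settled in the affirmative: in the instantaneous linear preferential
attachment model with `m ≥ 2` and `δ > 0`, the Wasserstein distance between the normalised
triangle count and the standard normal law is `O(1 / √(log n))`.

Proof idea.  Given `G_k`, the number of new triangles has mean `c Q_k / S_k ^ 2`, where `S_k` is
the total weight and `Q_k = ∑ D_u D_v M_uv`.  A closed system of recursions for `∑ D ^ 2`, `Q` and
a cubic potential shows that `Q_k` is within `O(k ^ (1 - ε))` of a linear function in mean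
square, and a similar recursion shows that two or more new triangles are rarely created.
So the triangle count can be coupled with a sum of independent Bernoulli variables with
parameters of order `1 / k` in such a way that the difference stays bounded in mean square.
Stein's method for the Bernoulli sum finishes the proof.
-/

namespace Pool.Agent.Results.MP_751612_pr.TriangleClt

open MeasureTheory Pool.Agent.H90.PA

/-- The expectation of `F (G_n)` for `n ≥ 2`. -/
noncomputable def Ex (m : ℕ) (δ : ℝ) (n : ℕ) (F : Gr → ℝ) : ℝ := E m δ (n - 2) F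

/-- The mean of the triangle count `T_n`. -/
noncomputable def mean (m : ℕ) (δ : ℝ) (n : ℕ) : ℝ := Ex m δ n (fun M => (tri n M : ℝ))

/-- The variance of the triangle count `T_n`. -/
noncomputable def var (m : ℕ) (δ : ℝ) (n : ℕ) : ℝ :=
  Ex m δ n (fun M => ((tri n M : ℝ) - mean m δ n) ^ 2)

/-- The Wasserstein distance between `(T_n - E T_n) / √(Var T_n)` and the standard normal law:
the supremum over all `1`-Lipschitz functions `h` of the absolute difference of expectations. -/
noncomputable def dW (m : ℕ) (δ : ℝ) (n : ℕ) : ENNReal :=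
  ⨆ (h : ℝ → ℝ) (_ : LipschitzWith 1 h),
    ENNReal.ofReal |Ex m δ n (fun M => h (((tri n M : ℝ) - mean m δ n) / Real.sqrt (var m δ n)))
      - ∫ x, h x ∂(ProbabilityTheory.gaussianReal 0 1)|

/-- For all `m ≥ 2` and `δ > 0`: for all large `n` the variance of the triangle count is positive
and the Wasserstein distance is at most `C / √(log n)`. -/
theorem result (m : ℕ) (hm : 2 ≤ m) (δ : ℝ) (hδ : 0 < δ) :
    ∃ (C : ℝ) (n₀ : ℕ), ∀ n : ℕ, n₀ ≤ n →
      0 < var m δ n ∧ dW m δ n ≤ ENNReal.ofReal (C / Real.sqrt (Real.log n)) := by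
  obtain ⟨B, hB, hdist⟩ := dist_bound hm hδ
  obtain ⟨c, hc, hv⟩ := vr_lower hm hδ
  refine ⟨(4 * Real.sqrt B + 7) / Real.sqrt c, max 3 ⌈Real.exp (4 * B / c)⌉₊, fun n hn => ?_⟩
  have hn3 : 3 ≤ n := (le_max_left _ _).trans hn
  have hnB : Real.exp (4 * B / c) ≤ n :=
    (Nat.le_ceil _).trans (by exact_mod_cast (le_max_right _ _).trans hn)
  obtain ⟨k, rfl⟩ : ∃ k, n = k + 2 := ⟨n - 2, by omega⟩
  have hk1 : 1 ≤ k := by omega
  have hvk := hv k hk1
  have hcast : ((k + 2 : ℕ) : ℝ) = (k : ℝ) + 2 := by push_cast; ring
  have hlog : 4 * B / c ≤ Real.log ((k + 2 : ℕ) : ℝ) := by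
    rw [← Real.log_exp (4 * B / c)]
    exact Real.log_le_log (Real.exp_pos _) hnB
  have hlog0 : 0 < Real.log ((k + 2 : ℕ) : ℝ) := by
    have : 0 < 4 * B / c := by positivity
    linarith
  have hbig : 4 * B ≤ vr (pk m δ) k := by
    rw [div_le_iff₀ hc] at hlog
    rw [hcast] at hlog
    linarith
  have hmain := main_fixed hm hδ hB hdist k hbig
  have hsub : k + 2 - 2 = k := by omega
  refine ⟨?_, ?_⟩
  · unfold var mean Ex
    rw [hsub]
    exact hmain.1
  · unfold dW
    refine iSup₂_le fun h hh => ENNReal.ofReal_le_ofReal ?_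
    unfold var mean Ex
    rw [hsub]
    refine (hmain.2 h hh).trans ?_
    rw [div_div, ← Real.sqrt_mul hc.le]
    refine div_le_div_of_nonneg_left (by positivity) ?_ ?_
    · exact Real.sqrt_pos.2 (mul_pos hc hlog0)
    · refine Real.sqrt_le_sqrt ?_
      rw [hcast]
      exact hvk

end Pool.Agent.Results.MP_751612_pr.TriangleClt
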